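import Mathlib

/-! # Generic real numbers in given intervals -/

set_option autoImplicit false

namespace Pool.Agent.TH522.MN

open Finset

theorem exists_generic {J : Type} [Fintype J] (l u : J → ℝ) (hl : ∀ j, 0 < l j)
    (hlu : ∀ j, l j < u j) :
    ∃ c : J → ℝ, (∀ j, l j < c j ∧ c j < u j) ∧ ∀ i j, i ≠ j → Irrational (c i / c j) := by
  classical
  have key : ∀ s : Finset J, ∃ c : J → ℝ, (∀ j, l j < c j ∧ c j < u j) ∧
      ∀ i ∈ s, ∀ j ∈ s, i ≠ j → Irrational (c i / c j) := by
    intro s
    induction s using Finset.induction_on with
    | empty =>
      refine ⟨fun j => (l j + u j) / 2, fun j => ?_, fun i hi => absurd hi (Finset.notMem_empty i)⟩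
      have := hlu j
      exact ⟨by linarith, by linarith⟩
    | insert a s ha ih =>
      obtain ⟨c, hc, hirr⟩ := ih
      have hB : (⋃ i ∈ s, Set.range fun q : ℚ => (q : ℝ) * c i).Countable :=
        s.countable_toSet.biUnion fun i _ => Set.countable_range _
      obtain ⟨z, hz, hlz, hzu⟩ := (hB.dense_compl ℝ).exists_between (hlu a)
      have hz0 : 0 < z := (hl a).trans hlz
      have hpos : ∀ j, 0 < c j := fun j => (hl j).trans (hc j).1
      have hz1 : ∀ i ∈ s, ∀ q : ℚ, (q : ℝ) * c i ≠ z := by
        intro i hi q hq
        exact hz (Set.mem_biUnion hi ⟨q, hq⟩)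
      have h1 : ∀ i ∈ s, Irrational (z / c i) := by
        rintro i hi ⟨q, hq⟩
        refine hz1 i hi q ?_
        rw [hq]
        exact div_mul_cancel₀ _ (hpos i).ne'
      have h2 : ∀ i ∈ s, Irrational (c i / z) := by
        intro i hi
        have := (h1 i hi).inv
        rwa [inv_div] at this
      refine ⟨Function.update c a z, fun j => ?_, fun i hi j hj hij => ?_⟩
      · by_cases hj : j = a
        · subst hj
          rw [Function.update_self]
          exact ⟨hlz, hzu⟩
        · rw [Function.update_of_ne hj]
          exact hc j
      · rw [Finset.mem_insert] at hi hj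
        by_cases hia : i = a
        · subst hia
          have hja : j ≠ i := fun h => hij h.symm
          have hjs : j ∈ s := hj.resolve_left hja
          rw [Function.update_self, Function.update_of_ne hja]
          exact h1 j hjs
        · have his : i ∈ s := hi.resolve_left hia
          by_cases hja : j = a
          · subst hja
            rw [Function.update_self, Function.update_of_ne hia]
            exact h2 i his
          · rw [Function.update_of_ne hia, Function.update_of_ne hja]
            exact hirr i his j (hj.resolve_left hja) hij
  obtain ⟨c, h1, h2⟩ := key Finset.univ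
  exact ⟨c, h1, fun i j hij => h2 i (Finset.mem_univ i) j (Finset.mem_univ j) hij⟩

end Pool.Agent.TH522.MN
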